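import Pool.Agent.H.MP_759ce5_an.C

set_option autoImplicit false

namespace Pool.Agent.Results.MP_759ce5_an.Yes

open Pool.Agent.H.MP_759ce5_an Pool.Agent.Lib.helper12.Grig

/-- Every quotient by a nonzero closed two-sided ideal is finite-dimensional. -/
def FinImages (A : Type) [Ring A] [Algebra ℂ A] [TopologicalSpace A] : Prop :=
  ∀ (I : Ideal A) [I.IsTwoSided], IsClosed (I : Set A) → I ≠ ⊥ → FiniteDimensional ℂ (A ⧸ I)

/-- The same property for the C*-subalgebra generated by S. -/
def FinImagesGen {B : Type} [CStarAlgebra B] (S : Set B) : Prop :=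
  FinImages (StarAlgebra.adjoin ℂ S).topologicalClosure

theorem result : (∀ g ∈ Grig, ∃ T, IsKoop g T) ∧ FinImagesGen {T | ∃ g ∈ Grig, IsKoop g T} :=
  ⟨fun g hg => ⟨_, koop_is ⟨g, hg⟩⟩, fun I h hc hI => @main I h hc hI⟩

end Pool.Agent.Results.MP_759ce5_an.Yes
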